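import Pool.Agent.H36.Cops.Lovasz

set_option autoImplicit false

/-!
# Cops and robbers on perfect graphs with independence number three
-/

namespace Pool.Agent.H36.Cops

open SimpleGraph Pool.Agent.H36.Skew

/-- The positions of the `k` cops during a play of *Cops and Robbers*: at the start they are on
`C₀`, and when the cops are on `C` and the robber is on `r`, the cops move to `σ C r`. Here `ρ n` is
the vertex of the robber after his `n`-th move (`ρ 0` is the vertex he chooses at the start). -/
def play {V : Type} {k : ℕ} (C₀ : Fin k → V) (σ : (Fin k → V) → V → (Fin k → V)) (ρ : ℕ → V) :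
    ℕ → (Fin k → V)
  | 0 => C₀
  | n + 1 => σ (play C₀ σ ρ n) (ρ n)

/-- `k` cops win on `G`: there are initial positions `C₀` and a strategy `σ` for the cops, moving
each cop to an adjacent vertex or leaving it where it is, such that against every sequence `ρ` of
legal choices of the robber, after finitely many moves some cop is on the vertex of the robber
(either after a move of the robber, or after a move of the cops). -/
def CopsWin {V : Type} (G : SimpleGraph V) (k : ℕ) : Prop :=
  ∃ (C₀ : Fin k → V) (σ : (Fin k → V) → V → (Fin k → V)),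
    (∀ C r i, σ C r i = C i ∨ G.Adj (C i) (σ C r i)) ∧
    ∀ ρ : ℕ → V, (∀ n, ρ (n + 1) = ρ n ∨ G.Adj (ρ n) (ρ (n + 1))) →
      ∃ (n : ℕ) (i : Fin k), play C₀ σ ρ n i = ρ n ∨ play C₀ σ ρ (n + 1) i = ρ n

variable {V : Type} {G : SimpleGraph V}

/-- A sufficient condition: the cops can force a position in which the robber is attacked wherever
he moves. -/
lemma copsWin_of {k : ℕ} (C₀ : Fin k → V)
    (h : ∀ r, (∃ i, C₀ i = r ∨ G.Adj (C₀ i) r) ∨ ∃ C' : Fin k → V,
      (∀ i, C' i = C₀ i ∨ G.Adj (C₀ i) (C' i)) ∧
      ∀ r', (r' = r ∨ G.Adj r r') → ∃ i, C' i = r' ∨ G.Adj (C' i) r') : CopsWin G k := by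
  classical
  have hch : ∀ r, ∃ C' : Fin k → V, (∀ i, C' i = C₀ i ∨ G.Adj (C₀ i) (C' i)) ∧
      ((∃ i, C₀ i = r ∨ G.Adj (C₀ i) r) ∨
        ∀ r', (r' = r ∨ G.Adj r r') → ∃ i, C' i = r' ∨ G.Adj (C' i) r') := by
    intro r
    rcases h r with h1 | ⟨C', h1, h2⟩
    · exact ⟨C₀, fun i => Or.inl rfl, Or.inl h1⟩
    · exact ⟨C', h1, Or.inr h2⟩
  choose f hf1 hf2 using hch
  set σ : (Fin k → V) → V → (Fin k → V) := fun C r =>
    if hc : ∃ i, C i = r ∨ G.Adj (C i) r then Function.update C hc.choose r
    else if C = C₀ then f r else C with hσ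
  have hatt : ∀ C r, (∃ i, C i = r ∨ G.Adj (C i) r) → ∃ i, σ C r i = r := by
    intro C r hc
    refine ⟨hc.choose, ?_⟩
    simp only [hσ, dif_pos hc, Function.update_self]
  refine ⟨C₀, σ, ?_, ?_⟩
  · intro C r i
    by_cases hc : ∃ i, C i = r ∨ G.Adj (C i) r
    · simp only [hσ, dif_pos hc]
      by_cases hi : i = hc.choose
      · rw [hi, Function.update_self]
        rcases hc.choose_spec with h1 | h1
        · exact Or.inl h1.symm
        · exact Or.inr h1
      · rw [Function.update_of_ne hi]
        exact Or.inl rfl
    · simp only [hσ, dif_neg hc]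
      by_cases hC : C = C₀
      · rw [if_pos hC, hC]
        exact hf1 r i
      · rw [if_neg hC]
        exact Or.inl rfl
  · intro ρ hρ
    by_cases h0 : ∃ i, C₀ i = ρ 0 ∨ G.Adj (C₀ i) (ρ 0)
    · obtain ⟨i, hi⟩ := hatt C₀ (ρ 0) h0
      exact ⟨0, i, Or.inr hi⟩
    · have h1 : play C₀ σ ρ 1 = f (ρ 0) := by
        show σ C₀ (ρ 0) = f (ρ 0)
        simp only [hσ, dif_neg h0, if_true]
      have h2 := (hf2 (ρ 0)).resolve_left h0 (ρ 1) (hρ 0)
      rw [← h1] at h2
      obtain ⟨i, hi⟩ := hatt (play C₀ σ ρ 1) (ρ 1) h2
      exact ⟨1, i, Or.inr hi⟩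

/-- A perfect graph has no induced cycle of length five. -/
lemma no_C5 [Fintype V] (hG : IsPerfect G) {c x w y b : V} (h1 : G.Adj c x) (h2 : G.Adj x w)
    (h3 : G.Adj w y) (h4 : G.Adj y b) (h5 : G.Adj b c) (n1 : ¬ G.Adj c w) (n2 : ¬ G.Adj c y)
    (n3 : ¬ G.Adj x y) (n4 : ¬ G.Adj x b) (n5 : ¬ G.Adj w b) : False := by
  classical
  have d1 : c ≠ w := fun h => n5 (by rw [← h]; exact h5.symm)
  have d2 : c ≠ y := fun h => n3 (by rw [← h]; exact h1.symm)
  have d3 : x ≠ y := fun h => n2 (by rw [← h]; exact h1)
  have d4 : x ≠ b := fun h => n5 (by rw [← h]; exact h2.symm)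
  have d5 : w ≠ b := fun h => n4 (by rw [← h]; exact h2)
  obtain ⟨f, hf⟩ := color_on hG ({c, x, w, y, b} : Finset V) 2 (by
    intro K hKS hK
    have e1 : c ∈ K → w ∉ K := fun a b => n1 (hK a b d1)
    have e2 : c ∈ K → y ∉ K := fun a b => n2 (hK a b d2)
    have e3 : x ∈ K → y ∉ K := fun a b => n3 (hK a b d3)
    have e4 : x ∈ K → b ∉ K := fun a b => n4 (hK a b d4)
    have e5 : w ∈ K → b ∉ K := fun a b => n5 (hK a b d5)
    have hmem : ∀ v ∈ K, v = c ∨ v = x ∨ v = w ∨ v = y ∨ v = b := by
      intro v hv
      simpa using hKS hv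
    have hpair : ∀ p q : V, (∀ v ∈ K, v = p ∨ v = q) → K.card ≤ 2 := by
      intro p q hpq
      refine (Finset.card_le_card (t := {p, q}) (fun v hv => ?_)).trans Finset.card_le_two
      simpa using hpq v hv
    by_cases hc : c ∈ K
    · by_cases hx : x ∈ K
      · apply hpair c x
        intro v hv
        rcases hmem v hv with rfl | rfl | rfl | rfl | rfl
        · exact Or.inl rfl
        · exact Or.inr rfl
        · exact absurd hv (e1 hc)
        · exact absurd hv (e2 hc)
        · exact absurd hv (e4 hx)
      · apply hpair c b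
        intro v hv
        rcases hmem v hv with rfl | rfl | rfl | rfl | rfl
        · exact Or.inl rfl
        · exact absurd hv hx
        · exact absurd hv (e1 hc)
        · exact absurd hv (e2 hc)
        · exact Or.inr rfl
    · by_cases hx : x ∈ K
      · apply hpair x w
        intro v hv
        rcases hmem v hv with rfl | rfl | rfl | rfl | rfl
        · exact absurd hv hc
        · exact Or.inl rfl
        · exact Or.inr rfl
        · exact absurd hv (e3 hx)
        · exact absurd hv (e4 hx)
      · by_cases hw : w ∈ K
        · apply hpair w y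
          intro v hv
          rcases hmem v hv with rfl | rfl | rfl | rfl | rfl
          · exact absurd hv hc
          · exact absurd hv hx
          · exact Or.inl rfl
          · exact Or.inr rfl
          · exact absurd hv (e5 hw)
        · apply hpair y b
          intro v hv
          rcases hmem v hv with rfl | rfl | rfl | rfl | rfl
          · exact absurd hv hc
          · exact absurd hv hx
          · exact absurd hv hw
          · exact Or.inl rfl
          · exact Or.inr rfl)
  have m1 : c ∈ ({c, x, w, y, b} : Finset V) := by simp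
  have m2 : x ∈ ({c, x, w, y, b} : Finset V) := by simp
  have m3 : w ∈ ({c, x, w, y, b} : Finset V) := by simp
  have m4 : y ∈ ({c, x, w, y, b} : Finset V) := by simp
  have m5 : b ∈ ({c, x, w, y, b} : Finset V) := by simp
  have g1 := hf ⟨c, m1⟩ ⟨x, m2⟩ h1
  have g2 := hf ⟨x, m2⟩ ⟨w, m3⟩ h2
  have g3 := hf ⟨w, m3⟩ ⟨y, m4⟩ h3
  have g4 := hf ⟨y, m4⟩ ⟨b, m5⟩ h4
  have g5 := hf ⟨b, m5⟩ ⟨c, m1⟩ h5
  omega

/-- An edge leaving a given class. -/
lemma exists_edge_out (hconn : G.Connected) {κ : V → Fin 3} {i : Fin 3} {u v : V} (hu : κ u = i)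
    (hv : κ v ≠ i) : ∃ p q : V, κ p = i ∧ κ q ≠ i ∧ G.Adj p q := by
  obtain ⟨w⟩ := hconn.preconnected u v
  obtain ⟨d, -, h1, h2⟩ := w.exists_boundary_dart {x | κ x = i} hu hv
  exact ⟨d.fst, d.snd, h1, h2, d.adj⟩

/-- The main argument. -/
theorem copsWin_two {κ : V → Fin 3} (hκ : ∀ x y, κ x = κ y → x ≠ y → G.Adj x y)
    (hsurj : ∀ i, ∃ x, κ x = i) (hconn : G.Connected)
    (hC5 : ∀ c x w y b : V, G.Adj c x → G.Adj x w → G.Adj w y → G.Adj y b → G.Adj b c →
      ¬ G.Adj c w → ¬ G.Adj c y → ¬ G.Adj x y → ¬ G.Adj x b → ¬ G.Adj w b → False) :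
    CopsWin G 2 := by
  classical
  -- a cop guards its clique
  have guard : ∀ p r, ¬ (p = r ∨ G.Adj p r) → κ r ≠ κ p := by
    intro p r h hk
    apply h
    by_cases hpr : p = r
    · exact Or.inl hpr
    · exact Or.inr (hκ p r hk.symm hpr)
  by_cases hA : ∃ x c b : V, κ x ≠ κ c ∧ κ c ≠ κ b ∧ κ x ≠ κ b ∧ G.Adj x c ∧ G.Adj c b ∧
      ¬ G.Adj x b
  · obtain ⟨x, c, b, k1, k2, k3, hxc, hcb, hxb⟩ := hA
    apply copsWin_of ![x, c]
    intro r
    by_cases hr : (x = r ∨ G.Adj x r) ∨ (c = r ∨ G.Adj c r)
    · left
      rcases hr with hr | hr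
      · exact ⟨0, hr⟩
      · exact ⟨1, hr⟩
    · right
      rw [not_or] at hr
      have q1 := guard x r hr.1
      have q2 := guard c r hr.2
      refine ⟨![c, b], ?_, ?_⟩
      · intro i
        fin_cases i
        · exact Or.inr hxc
        · exact Or.inr hcb
      · intro r' hr'
        by_contra hcon
        push Not at hcon
        have hc' := hcon 0
        have hb' := hcon 1
        simp only [Matrix.cons_val_zero, Matrix.cons_val_one] at hc' hb'
        have q3 := guard c r' (by rintro (h | h); exacts [hc'.1 h, hc'.2 h])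
        have q4 := guard b r' (by rintro (h | h); exacts [hb'.1 h, hb'.2 h])
        rw [not_or, not_or] at hr
        have hkr : κ r = κ b := by omega
        have hkr' : κ r' = κ x := by omega
        have hne : r' ≠ r := fun h => by rw [h, hkr] at hkr'; exact k3 hkr'.symm
        have hadj : G.Adj r r' := hr'.resolve_left hne
        have hxr' : G.Adj x r' := by
          apply hκ x r' hkr'.symm
          rintro rfl
          exact hc'.2 hxc.symm
        have hrb : G.Adj r b := by
          apply hκ r b hkr
          rintro rfl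
          exact hr.2.2 hcb
        exact hC5 c x r' r b hxc.symm hxr' hadj.symm hrb hcb.symm hc'.2 hr.2.2 hr.1.2 hxb
          (fun h => hb'.2 h.symm)
  · push Not at hA
    by_cases hB : ∃ i j : Fin 3, i ≠ j ∧ ∀ u v, κ u = i → κ v = j → ¬ G.Adj u v
    · obtain ⟨i, j, hij, hno⟩ := hB
      have hthird : ∀ i j : Fin 3, ∃ l : Fin 3, l ≠ i ∧ l ≠ j := by decide
      obtain ⟨l, hli, hlj⟩ := hthird i j
      obtain ⟨xi, hxi⟩ := hsurj i
      obtain ⟨xj, hxj⟩ := hsurj j
      obtain ⟨n1, c1, hn1, hc1, ha1⟩ := exists_edge_out hconn hxi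
        (v := xj) (by rw [hxj]; exact hij.symm)
      obtain ⟨n2, c2, hn2, hc2, ha2⟩ := exists_edge_out hconn hxj
        (v := xi) (by rw [hxi]; exact hij)
      have hc1l : κ c1 = l := by
        have : κ c1 ≠ j := fun h => hno n1 c1 hn1 h ha1
        omega
      have hc2l : κ c2 = l := by
        have : κ c2 ≠ i := fun h => hno c2 n2 h hn2 ha2.symm
        omega
      apply copsWin_of ![c1, c2]
      intro r
      by_cases hr : (c1 = r ∨ G.Adj c1 r) ∨ (c2 = r ∨ G.Adj c2 r)
      · left
        rcases hr with hr | hr
        · exact ⟨0, hr⟩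
        · exact ⟨1, hr⟩
      · right
        rw [not_or] at hr
        have q1 := guard c1 r hr.1
        have hrk : κ r = i ∨ κ r = j := by omega
        rcases hrk with hrk | hrk
        · refine ⟨![n1, c2], ?_, ?_⟩
          · intro t
            fin_cases t
            · exact Or.inr ha1.symm
            · exact Or.inl rfl
          · intro r' hr'
            by_contra hcon
            push Not at hcon
            have e1 := hcon 0
            have e2 := hcon 1
            simp only [Matrix.cons_val_zero, Matrix.cons_val_one] at e1 e2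
            have q3 := guard n1 r' (by rintro (h | h); exacts [e1.1 h, e1.2 h])
            have q4 := guard c2 r' (by rintro (h | h); exacts [e2.1 h, e2.2 h])
            have hk : κ r' = j := by omega
            rcases hr' with h | h
            · rw [h, hrk] at hk; exact hij hk
            · exact hno r r' hrk hk h
        · refine ⟨![c1, n2], ?_, ?_⟩
          · intro t
            fin_cases t
            · exact Or.inl rfl
            · exact Or.inr ha2.symm
          · intro r' hr'
            by_contra hcon
            push Not at hcon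
            have e1 := hcon 0
            have e2 := hcon 1
            simp only [Matrix.cons_val_zero, Matrix.cons_val_one] at e1 e2
            have q3 := guard c1 r' (by rintro (h | h); exacts [e1.1 h, e1.2 h])
            have q4 := guard n2 r' (by rintro (h | h); exacts [e2.1 h, e2.2 h])
            have hk : κ r' = i := by omega
            rcases hr' with h | h
            · rw [h, hrk] at hk; exact hij hk.symm
            · exact hno r' r hk hrk h.symm
    · push Not at hB
      obtain ⟨a, c, ha, hc, hac⟩ := hB 0 2 (by decide)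
      obtain ⟨b, d, hb, hd, hbd⟩ := hB 1 2 (by decide)
      apply copsWin_of ![a, b]
      intro r
      by_cases hr : (a = r ∨ G.Adj a r) ∨ (b = r ∨ G.Adj b r)
      · left
        rcases hr with hr | hr
        · exact ⟨0, hr⟩
        · exact ⟨1, hr⟩
      · right
        rw [not_or] at hr
        have q1 := guard a r hr.1
        have q2 := guard b r hr.2
        have hrk : κ r = 2 := by omega
        by_cases hM : ∃ b', κ b' = 1 ∧ G.Adj r b'
        · obtain ⟨b', hb', hrb'⟩ := hM
          refine ⟨![c, b'], ?_, ?_⟩
          · intro t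
            fin_cases t
            · exact Or.inr hac
            · by_cases hbb : b = b'
              · exact Or.inl hbb.symm
              · exact Or.inr (hκ b b' (by rw [hb, hb']) hbb)
          · intro r' hr'
            by_contra hcon
            push Not at hcon
            have e1 := hcon 0
            have e2 := hcon 1
            simp only [Matrix.cons_val_zero, Matrix.cons_val_one] at e1 e2
            have q3 := guard c r' (by rintro (h | h); exacts [e1.1 h, e1.2 h])
            have q4 := guard b' r' (by rintro (h | h); exacts [e2.1 h, e2.2 h])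
            have hk : κ r' = 0 := by omega
            rcases hr' with h | h
            · rw [h, hrk] at hk; exact absurd hk (by decide)
            · have := hA r' r b' (by rw [hk, hrk]; decide) (by rw [hrk, hb']; decide)
                (by rw [hk, hb']; decide) h.symm hrb'
              exact e2.2 this.symm
        · push Not at hM
          refine ⟨![a, d], ?_, ?_⟩
          · intro t
            fin_cases t
            · exact Or.inl rfl
            · exact Or.inr hbd
          · intro r' hr'
            by_contra hcon
            push Not at hcon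
            have e1 := hcon 0
            have e2 := hcon 1
            simp only [Matrix.cons_val_zero, Matrix.cons_val_one] at e1 e2
            have q3 := guard a r' (by rintro (h | h); exacts [e1.1 h, e1.2 h])
            have q4 := guard d r' (by rintro (h | h); exacts [e2.1 h, e2.2 h])
            have hk : κ r' = 1 := by omega
            rcases hr' with h | h
            · rw [h, hrk] at hk; exact absurd hk (by decide)
            · exact hM r' hk h

/-- Every connected perfect graph with independence number three is `2`-cop-win. -/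
theorem copsWin_of_perfect [Fintype V] (hG : IsPerfect G) (hconn : G.Connected)
    (hα : G.indepNum = 3) : CopsWin G 2 := by
  classical
  obtain ⟨P, hP, hcov⟩ := exists_cover hG 3 Finset.univ (fun I _ hI => by
    have := hI.card_le_indepNum
    omega)
  have hcov' : ∀ x, ∃ i, x ∈ P i := fun x => hcov x (Finset.mem_univ x)
  choose κ hκ using hcov'
  apply copsWin_two (κ := κ)
  · intro x y hxy hne
    have h1 := hκ x
    have h2 := hκ y
    rw [← hxy] at h2
    exact hP (κ x) h1 h2 hne
  · -- a maximum independent set meets all three cliques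
    obtain ⟨I, hI⟩ := G.exists_isNIndepSet_indepNum
    have hinj : Set.InjOn κ (I : Set V) := by
      intro x hx y hy hxy
      by_contra hne
      have h1 := hκ x
      have h2 := hκ y
      rw [← hxy] at h2
      exact hI.isIndepSet hx hy hne (hP (κ x) h1 h2 hne)
    have hcard : (I.image κ).card = 3 := by
      rw [Finset.card_image_of_injOn hinj, hI.card_eq, hα]
    have huniv : I.image κ = Finset.univ := by
      apply Finset.eq_univ_of_card
      rw [hcard, Fintype.card_fin]
    intro i
    have : i ∈ I.image κ := by rw [huniv]; exact Finset.mem_univ i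
    obtain ⟨x, -, hx⟩ := Finset.mem_image.1 this
    exact ⟨x, hx⟩
  · exact hconn
  · intro c x w y b h1 h2 h3 h4 h5 n1 n2 n3 n4 n5
    exact no_C5 hG h1 h2 h3 h4 h5 n1 n2 n3 n4 n5

end Pool.Agent.H36.Cops
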