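import Pool.Agent.H36.Skew.Perfect

set_option autoImplicit false

/-!
# The weak perfect graph theorem (Lovász)

A perfect graph is covered by `α` cliques, where `α` is its independence number.
-/

namespace Pool.Agent.H36.Cops

open SimpleGraph Pool.Agent.H36.Skew

variable {V : Type} {G : SimpleGraph V}

/-- A clique and an independent set have at most one common vertex. -/
lemma card_inter_le_one [DecidableEq V] {K I : Finset V} (hK : G.IsClique (K : Set V))
    (hI : G.IsIndepSet (I : Set V)) : (K ∩ I).card ≤ 1 := by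
  rw [Finset.card_le_one]
  intro a ha b hb
  by_contra hne
  rw [Finset.mem_inter] at ha hb
  exact hI ha.2 hb.2 hne (hK ha.1 hb.1 hne)

/-- Colouring of a set of vertices of a perfect graph. -/
lemma color_on [Fintype V] [DecidableEq V] (hG : IsPerfect G) (S : Finset V) (n : ℕ)
    (h : ∀ K ⊆ S, G.IsClique (K : Set V) → K.card ≤ n) :
    ∃ f : S → Fin n, ∀ x y : S, G.Adj x y → f x ≠ f y := by
  classical
  have h1 := hG (S : Set V)
  have h2 : (G.induce (S : Set V)).cliqueNum ≤ n := by
    obtain ⟨K, hK⟩ := (G.induce (S : Set V)).exists_isNClique_cliqueNum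
    rw [← hK.card_eq]
    have h3 := h (K.map ⟨Subtype.val, Subtype.val_injective⟩) ?_ ?_
    · rwa [Finset.card_map] at h3
    · intro x hx
      obtain ⟨y, -, rfl⟩ := Finset.mem_map.1 hx
      exact y.2
    · intro x hx y hy hne
      rw [Finset.mem_coe] at hx hy
      obtain ⟨x', hx', rfl⟩ := Finset.mem_map.1 hx
      obtain ⟨y', hy', rfl⟩ := Finset.mem_map.1 hy
      have hne' : x' ≠ y' := fun h => hne (by rw [h])
      exact hK.isClique hx' hy' hne'
  have h3 : (G.induce (S : Set V)).Colorable n := by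
    rw [← chromaticNumber_le_iff_colorable, h1]
    exact_mod_cast h2
  obtain ⟨c⟩ := h3
  exact ⟨fun x => c x, fun x y hxy => c.valid (show (G.induce (S : Set V)).Adj x y from hxy)⟩

/-- Weighted version: the replication lemma. -/
theorem weighted [Fintype V] [DecidableEq V] (hG : IsPerfect G) : ∀ (N : ℕ) (w : V → ℕ),
    ∑ x, w x ≤ N → ∀ n : ℕ, (∀ K : Finset V, G.IsClique (K : Set V) → ∑ x ∈ K, w x ≤ n) →
    ∃ L : Fin n → Finset V, (∀ i, G.IsIndepSet (L i : Set V)) ∧
      ∀ x, (Finset.univ.filter (fun i => x ∈ L i)).card = w x := by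
  classical
  intro N
  induction N with
  | zero =>
    intro w hw n _
    refine ⟨fun _ => ∅, fun i => by simp, fun x => ?_⟩
    have h1 : w x ≤ ∑ y, w y := Finset.single_le_sum (fun _ _ => Nat.zero_le _) (Finset.mem_univ x)
    simp only [Finset.notMem_empty, Finset.filter_false, Finset.card_empty]
    omega
  | succ N ih =>
    intro w hw n hn
    by_cases hsmall : ∀ x, w x ≤ 1
    · -- ordinary colouring of the support
      set S : Finset V := Finset.univ.filter (fun x => w x = 1) with hS
      have mS : ∀ x, x ∈ S ↔ w x = 1 := fun x => by simp [hS]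
      obtain ⟨f, hf⟩ := color_on hG S n (fun K hKS hK => by
        have h1 := hn K hK
        have h2 : ∑ x ∈ K, w x = ∑ x ∈ K, 1 :=
          Finset.sum_congr rfl (fun x hx => (mS x).1 (hKS hx))
        rw [h2] at h1
        simpa using h1)
      refine ⟨fun i => Finset.univ.filter (fun x => ∃ h : x ∈ S, f ⟨x, h⟩ = i), fun i => ?_,
        fun x => ?_⟩
      · intro x hx y hy hne hadj
        simp only [Finset.coe_filter, Finset.mem_univ, true_and, Set.mem_ofPred_eq] at hx hy
        obtain ⟨hx1, hx2⟩ := hx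
        obtain ⟨hy1, hy2⟩ := hy
        exact hf ⟨x, hx1⟩ ⟨y, hy1⟩ hadj (by rw [hx2, hy2])
      · simp only [Finset.mem_filter, Finset.mem_univ, true_and]
        by_cases hx : x ∈ S
        · rw [(mS x).1 hx]
          rw [Finset.card_eq_one]
          refine ⟨f ⟨x, hx⟩, ?_⟩
          ext i
          simp only [Finset.mem_filter, Finset.mem_univ, true_and, Finset.mem_singleton]
          exact ⟨fun ⟨_, h⟩ => h.symm, fun h => ⟨hx, h.symm⟩⟩
        · have h0 : w x = 0 := by
            have h1 := hsmall x
            have h2 : w x ≠ 1 := fun h => hx ((mS x).2 h)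
            omega
          rw [h0, Finset.card_eq_zero]
          ext i
          simp only [Finset.mem_filter, Finset.mem_univ, true_and, Finset.notMem_empty, iff_false]
          exact fun ⟨h, _⟩ => hx h
    · push Not at hsmall
      obtain ⟨x, hx⟩ := hsmall
      set w' : V → ℕ := Function.update w x (w x - 1) with hw'
      have hw'x : w' x = w x - 1 := by simp [hw']
      have hw'y : ∀ y, y ≠ x → w' y = w y := fun y hy => by simp [hw', hy]
      have hle : ∀ y, w' y ≤ w y := by
        intro y
        by_cases hy : y = x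
        · rw [hy, hw'x]; omega
        · rw [hw'y y hy]
      have hsum : ∑ y, w' y < ∑ y, w y :=
        Finset.sum_lt_sum (fun y _ => hle y) ⟨x, Finset.mem_univ x, by rw [hw'x]; omega⟩
      obtain ⟨L', hL'i, hL'c⟩ := ih w' (by omega) n
        (fun K hK => (Finset.sum_le_sum (fun y _ => hle y)).trans (hn K hK))
      -- a class containing `x`
      have hx1 : 0 < (Finset.univ.filter (fun i => x ∈ L' i)).card := by
        rw [hL'c, hw'x]; omega
      obtain ⟨i₀, hi₀⟩ := Finset.card_pos.1 hx1
      have hxA : x ∈ L' i₀ := (Finset.mem_filter.1 hi₀).2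
      set A := L' i₀ with hA
      have hApos : ∀ y ∈ A, 1 ≤ w' y := by
        intro y hy
        rw [← hL'c y]
        exact Finset.card_pos.2 ⟨i₀, Finset.mem_filter.2 ⟨Finset.mem_univ _, hy⟩⟩
      obtain ⟨m, rfl⟩ : ∃ m, n = m + 1 := ⟨n - 1, by have := i₀.isLt; omega⟩
      set w'' : V → ℕ := fun y => if y ∈ A ∧ y ≠ x then w' y - 1 else w' y with hw''
      have hle2 : ∀ y, w'' y ≤ w' y := by
        intro y
        simp only [hw'']
        split_ifs <;> omega
      have hsum2 : ∑ y, w'' y ≤ ∑ y, w' y := Finset.sum_le_sum (fun y _ => hle2 y)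
      have hbound : ∀ K : Finset V, G.IsClique (K : Set V) → ∑ y ∈ K, w'' y ≤ m := by
        intro K hK
        by_contra hlt
        rw [not_le] at hlt
        have h1 : ∑ y ∈ K, w'' y ≤ ∑ y ∈ K, w' y := Finset.sum_le_sum (fun y _ => hle2 y)
        -- double counting
        have h2 : ∑ y ∈ K, w' y = ∑ i, (K ∩ L' i).card := by
          have e1 : ∀ y, w' y = ∑ i, if y ∈ L' i then 1 else 0 := by
            intro y
            rw [← hL'c y, Finset.card_filter]
          simp only [e1]
          rw [Finset.sum_comm]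
          apply Finset.sum_congr rfl
          intro i _
          rw [← Finset.filter_mem_eq_inter, Finset.card_filter]
        have h3 : ∀ i, (K ∩ L' i).card ≤ 1 := fun i => card_inter_le_one hK (hL'i i)
        have h4 : (K ∩ A).card = 1 := by
          by_contra hne
          have h5 : (K ∩ L' i₀).card < 1 := lt_of_le_of_ne (h3 i₀) hne
          have h6 : ∑ i : Fin (m + 1), (K ∩ L' i).card < ∑ _i : Fin (m + 1), 1 :=
            Finset.sum_lt_sum (fun i _ => h3 i) ⟨i₀, Finset.mem_univ _, h5⟩
          rw [← h2] at h6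
          simp only [Finset.sum_const, Finset.card_univ, Fintype.card_fin, smul_eq_mul,
            mul_one] at h6
          omega
        have h5 : ∑ y ∈ K, w' y ≤ m + 1 := by
          rw [h2]
          calc ∑ i, (K ∩ L' i).card ≤ ∑ _i : Fin (m + 1), 1 := Finset.sum_le_sum (fun i _ => h3 i)
            _ = m + 1 := by simp
        obtain ⟨y, hy⟩ := Finset.card_pos.1 (by rw [h4]; exact one_pos)
        rw [Finset.mem_inter] at hy
        by_cases hyx : y = x
        · subst hyx
          have h6 : ∑ z ∈ K, w' z < ∑ z ∈ K, w z :=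
            Finset.sum_lt_sum (fun z _ => hle z) ⟨y, hy.1, by rw [hw'x]; omega⟩
          have h7 := hn K hK
          omega
        · have h6 : ∑ z ∈ K, w'' z < ∑ z ∈ K, w' z := by
            refine Finset.sum_lt_sum (fun z _ => hle2 z) ⟨y, hy.1, ?_⟩
            have h8 := hApos y hy.2
            simp only [hw'', hy.2, hyx, ne_eq, not_false_eq_true, and_self, if_true]
            omega
          omega
      obtain ⟨L'', hL''i, hL''c⟩ := ih w'' (by omega) m hbound
      refine ⟨Fin.cons A L'', ?_, ?_⟩
      · intro i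
        refine Fin.cases ?_ (fun j => ?_) i
        · rw [Fin.cons_zero]; exact hL'i i₀
        · rw [Fin.cons_succ]; exact hL''i j
      · intro y
        rw [Finset.card_filter, Fin.sum_univ_succ]
        simp only [Fin.cons_zero, Fin.cons_succ]
        rw [← Finset.card_filter, hL''c y]
        simp only [hw'']
        by_cases hyA : y ∈ A
        · by_cases hyx : y = x
          · subst hyx
            simp only [hyA, ne_eq, not_true_eq_false, and_false, if_false, if_true, hw'x]
            omega
          · have h8 := hApos y hyA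
            simp only [hyA, hyx, ne_eq, not_false_eq_true, and_self, if_true]
            rw [← hw'y y hyx]
            omega
        · have hyx : y ≠ x := fun h => hyA (h ▸ hxA)
          simp only [hyA, false_and, if_false]
          rw [hw'y y hyx]
          omega

/-- In a perfect graph some clique meets all maximum independent sets. -/
theorem exists_clique_meeting [Fintype V] [DecidableEq V] (hG : IsPerfect G) (S : Finset V) {a : ℕ}
    (ha : 0 < a) (hmax : ∀ I ⊆ S, G.IsIndepSet (I : Set V) → I.card ≤ a) :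
    ∃ K ⊆ S, G.IsClique (K : Set V) ∧
      ∀ I ⊆ S, G.IsIndepSet (I : Set V) → I.card = a → (K ∩ I).Nonempty := by
  classical
  by_contra hcon
  push Not at hcon
  set 𝒦 : Finset (Finset V) := S.powerset.filter (fun K => G.IsClique (K : Set V)) with h𝒦
  have m𝒦 : ∀ K, K ∈ 𝒦 ↔ K ⊆ S ∧ G.IsClique (K : Set V) := fun K => by
    rw [h𝒦, Finset.mem_filter, Finset.mem_powerset]
  have hch : ∀ K : Finset V, ∃ I : Finset V, (K ∈ 𝒦 → I ⊆ S ∧ G.IsIndepSet (I : Set V) ∧
      I.card = a ∧ K ∩ I = ∅) := by
    intro K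
    by_cases hK : K ∈ 𝒦
    · obtain ⟨I, h1, h2, h3, h4⟩ := hcon K ((m𝒦 K).1 hK).1 ((m𝒦 K).1 hK).2
      exact ⟨I, fun _ => ⟨h1, h2, h3, h4⟩⟩
    · exact ⟨∅, fun h => absurd h hK⟩
  choose I hI using hch
  set w : V → ℕ := fun x => (𝒦.filter (fun K => x ∈ I K)).card with hw
  have hcount : ∀ X : Finset V, ∑ x ∈ X, w x = ∑ K ∈ 𝒦, (X ∩ I K).card := by
    intro X
    simp only [hw, Finset.card_filter]
    rw [Finset.sum_comm]
    apply Finset.sum_congr rfl
    intro K _
    rw [← Finset.filter_mem_eq_inter, Finset.card_filter]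
  have h0 : ∅ ∈ 𝒦 := (m𝒦 ∅).2 ⟨Finset.empty_subset _, by simp⟩
  have hpos : 0 < 𝒦.card := Finset.card_pos.2 ⟨∅, h0⟩
  have hcl : ∀ X : Finset V, G.IsClique (X : Set V) → ∑ x ∈ X, w x ≤ 𝒦.card - 1 := by
    intro X hX
    rw [hcount]
    have hX' : X ∩ S ∈ 𝒦 := by
      rw [m𝒦]
      refine ⟨Finset.inter_subset_right, ?_⟩
      apply hX.subset
      intro x hx
      exact (Finset.mem_inter.1 hx).1
    have h1 : ∑ K ∈ 𝒦, (X ∩ I K).card < ∑ K ∈ 𝒦, 1 := by
      refine Finset.sum_lt_sum (fun K hK => card_inter_le_one hX (hI K hK).2.1)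
        ⟨X ∩ S, hX', ?_⟩
      have h2 : X ∩ I (X ∩ S) = ∅ := by
        rw [← (hI _ hX').2.2.2]
        ext y
        simp only [Finset.mem_inter]
        constructor
        · rintro ⟨h3, h4⟩
          exact ⟨⟨h3, (hI _ hX').1 h4⟩, h4⟩
        · rintro ⟨⟨h3, -⟩, h4⟩
          exact ⟨h3, h4⟩
      rw [h2, Finset.card_empty]
      exact one_pos
    simp only [Finset.sum_const, smul_eq_mul, mul_one] at h1
    omega
  obtain ⟨L, hLi, hLc⟩ := weighted hG (∑ x, w x) w le_rfl (𝒦.card - 1) hcl
  have hLS : ∀ i, L i ⊆ S := by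
    intro i x hx
    have h1 : 0 < w x := by
      rw [← hLc x]
      exact Finset.card_pos.2 ⟨i, Finset.mem_filter.2 ⟨Finset.mem_univ _, hx⟩⟩
    simp only [hw] at h1
    obtain ⟨K, hK⟩ := Finset.card_pos.1 h1
    rw [Finset.mem_filter] at hK
    exact (hI K hK.1).1 hK.2
  have h1 : ∑ x, w x = 𝒦.card * a := by
    have h2 := hcount Finset.univ
    rw [h2, Finset.card_eq_sum_ones, Finset.sum_mul]
    apply Finset.sum_congr rfl
    intro K hK
    rw [Finset.univ_inter, (hI K hK).2.2.1, one_mul]
  have h2 : ∑ x, w x = ∑ i, (L i).card := by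
    have e1 : ∀ y, w y = ∑ i, if y ∈ L i then 1 else 0 := by
      intro y
      rw [← hLc y, Finset.card_filter]
    simp only [e1]
    rw [Finset.sum_comm]
    apply Finset.sum_congr rfl
    intro i _
    rw [← Finset.card_filter, Finset.filter_mem_eq_inter, Finset.univ_inter]
  have h3 : ∑ i, (L i).card ≤ (𝒦.card - 1) * a := by
    calc ∑ i, (L i).card ≤ ∑ _i : Fin (𝒦.card - 1), a :=
          Finset.sum_le_sum (fun i _ => hmax _ (hLS i) (hLi i))
      _ = (𝒦.card - 1) * a := by simp
  rw [← h2, h1] at h3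
  have h4 := Nat.le_of_mul_le_mul_right h3 ha
  omega

/-- **Lovász' theorem**: a perfect graph is covered by `α` cliques. -/
theorem exists_cover [Fintype V] [DecidableEq V] (hG : IsPerfect G) : ∀ (n : ℕ) (S : Finset V),
    (∀ I ⊆ S, G.IsIndepSet (I : Set V) → I.card ≤ n) →
    ∃ P : Fin n → Finset V, (∀ i, G.IsClique (P i : Set V)) ∧ ∀ x ∈ S, ∃ i, x ∈ P i := by
  intro n
  induction n with
  | zero =>
    intro S hS
    refine ⟨fun _ => ∅, fun i => by simp, fun x hx => ?_⟩
    have h1 := hS {x} (Finset.singleton_subset_iff.2 hx) (by simp)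
    simp at h1
  | succ n ih =>
    intro S hS
    obtain ⟨K, hKS, hK, hmeet⟩ := exists_clique_meeting hG S n.succ_pos hS
    obtain ⟨P, hP, hcov⟩ := ih (S \ K) (by
      intro I hI hIi
      have hIS : I ⊆ S := hI.trans Finset.sdiff_subset
      have h1 := hS I hIS hIi
      by_contra hlt
      obtain ⟨x, hx⟩ := hmeet I hIS hIi (by omega)
      rw [Finset.mem_inter] at hx
      exact (Finset.mem_sdiff.1 (hI hx.2)).2 hx.1)
    refine ⟨Fin.cons K P, ?_, ?_⟩
    · intro i
      refine Fin.cases ?_ (fun j => ?_) i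
      · rw [Fin.cons_zero]; exact hK
      · rw [Fin.cons_succ]; exact hP j
    · intro x hx
      by_cases hxK : x ∈ K
      · exact ⟨0, by rw [Fin.cons_zero]; exact hxK⟩
      · obtain ⟨i, hi⟩ := hcov x (Finset.mem_sdiff.2 ⟨hx, hxK⟩)
        exact ⟨i.succ, by rw [Fin.cons_succ]; exact hi⟩

end Pool.Agent.H36.Cops
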